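import Pool.Agent.H220M.Base4

set_option autoImplicit false

namespace Pool.Agent.W333.LQ.M3

open Finset
open Pool.Agent.H220M

theorem tM3 : StmM3 := by
  intro k M x hM P inst hP
  have h1 : ((Fintype.piFinset (fun _ : Fin k => range (x/M+1))) ×ˢ
      ((Fintype.piFinset (fun _ : Fin k => range M)).filter P)).card =
      (x/M+1)^k * ((Fintype.piFinset (fun _ : Fin k => range M)).filter P).card := by
    rw [card_product, Fintype.card_piFinset]
    simp
  rw [← h1]
  apply Finset.card_le_card_of_injOn
    (fun τ : Fin k → ℕ => ((fun i => τ i / M : Fin k → ℕ), (fun i => τ i % M : Fin k → ℕ)))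
  · intro τ hτ
    have hτ' := mem_filter.mp (mem_coe.mp hτ)
    rw [mem_coe, mem_product, Fintype.mem_piFinset, mem_filter, Fintype.mem_piFinset]
    refine ⟨fun i => ?_, fun i => ?_, ?_⟩
    · rw [mem_range]
      have := mem_range.mp (Fintype.mem_piFinset.mp hτ'.1 i)
      exact Nat.lt_succ_of_le (Nat.div_le_div_right this.le)
    · rw [mem_range]
      exact Nat.mod_lt _ hM
    · exact (hP τ _ fun i => (Nat.mod_modEq _ _).symm).mp hτ'.2
  · intro τ _ τ' _ h
    funext i
    have a : τ i / M = τ' i / M := congrFun (congrArg Prod.fst h) i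
    have b : τ i % M = τ' i % M := congrFun (congrArg Prod.snd h) i
    rw [← Nat.div_add_mod (τ i) M, ← Nat.div_add_mod (τ' i) M, a, b]

end Pool.Agent.W333.LQ.M3
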