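import Pool.Agent.H220M.Base4

set_option autoImplicit false

namespace Pool.Agent.W333.LQ.M5

open Finset Polynomial
open Pool.Agent.H220M

theorem eval_congr (F : ℤ[X]) (q : ℕ) (a b : ℕ) (h : a ≡ b [MOD q^2]) :
    ((q:ℤ)^2) ∣ F.eval ((a:ℤ)+1) - F.eval ((b:ℤ)+1) := by
  have h1 : ((q:ℤ)^2) ∣ ((a:ℤ)+1) - ((b:ℤ)+1) := by
    have h0 := Nat.modEq_iff_dvd.mp h
    have h2 : ((q:ℤ)^2) ∣ (b:ℤ) - a := by exact_mod_cast h0
    have h3 : ((a:ℤ)+1) - ((b:ℤ)+1) = -((b:ℤ) - a) := by ring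
    rw [h3]
    exact (dvd_neg).mpr h2
  exact h1.trans (Polynomial.sub_dvd_eval_sub _ _ F)

theorem one_congr {k : ℕ} (F : ℤ[X]) (q : ℕ) (τ τ' : Fin k → ℕ)
    (h : ∀ i, τ i ≡ τ' i [MOD q^2]) : one F q τ ↔ one F q τ' := by
  have h2 : ∀ i, ((q:ℤ)^2 ∣ F.eval ((τ i : ℤ)+1) ↔ (q:ℤ)^2 ∣ F.eval ((τ' i : ℤ)+1)) := fun i =>
    dvd_iff_dvd_of_dvd_sub (eval_congr F q _ _ (h i))
  have h1 : ∀ i, ((q:ℤ) ∣ F.eval ((τ i : ℤ)+1) ↔ (q:ℤ) ∣ F.eval ((τ' i : ℤ)+1)) := fun i =>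
    dvd_iff_dvd_of_dvd_sub ((dvd_pow_self _ two_ne_zero).trans (eval_congr F q _ _ (h i)))
  unfold one
  simp only [h1, h2]

theorem not_one {k : ℕ} (F : ℤ[X]) (q : ℕ) (hq : q.Prime) (τ : Fin k → ℕ)
    (h : Even (∑ i, (F.eval ((τ i : ℤ)+1)).natAbs.factorization q)) : ¬ one F q τ := by
  rintro ⟨i, ⟨h1, h2⟩, h3⟩
  have e : ∑ i', (F.eval ((τ i' : ℤ)+1)).natAbs.factorization q = 1 := by
    rw [Finset.sum_eq_single i]
    · have n0 : (F.eval ((τ i : ℤ)+1)).natAbs ≠ 0 := by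
        intro h0
        rw [Int.natAbs_eq_zero] at h0
        exact h2 (h0 ▸ dvd_zero _)
      have a1 : q ∣ (F.eval ((τ i : ℤ)+1)).natAbs := Int.natCast_dvd.mp h1
      have a2 : ¬ q^2 ∣ (F.eval ((τ i : ℤ)+1)).natAbs := by
        intro hc
        apply h2
        have := Int.natCast_dvd.mpr hc
        exact_mod_cast this
      have b1 := (hq.dvd_iff_one_le_factorization n0).mp a1
      have b2 : ¬ 2 ≤ (F.eval ((τ i : ℤ)+1)).natAbs.factorization q :=
        fun hc => a2 ((hq.pow_dvd_iff_le_factorization n0).mpr hc)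
      omega
    · intro i' _ hne
      apply Nat.factorization_eq_zero_of_not_dvd
      intro hc
      exact h3 i' hne (Int.natCast_dvd.mpr hc)
    · intro hc
      exact absurd (mem_univ i) hc
  rw [e] at h
  exact absurd h (by decide)

theorem flip_eq (S : Finset ℕ) (n : ℕ) :
    (((flipU S n : ℤˣ) : ℤ) : ℝ) = ∏ q ∈ S, (-1:ℝ)^(n.factorization q) := by
  unfold flipU
  push_cast
  rfl

theorem tM5 (hM1 : StmM1) (hM2 : StmM2) (hM3 : StmM3) (hM4 : StmM4) : StmM5 := by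
  classical
  intro F η s Q hη hs hQ hsum x hx G hG inst
  set M : ℕ := ∏ q ∈ Q, q^2 with hM
  have hMpos : 0 < M := Finset.prod_pos fun q hq => pow_pos (hQ q hq).1.pos 2
  have hxpos : 0 < x := hMpos.trans_le hx
  have hxR : (0:ℝ) < x := by exact_mod_cast hxpos
  have m1 := hM1 Q x (2*s) G hG (fun q m => (F.eval ((m:ℤ)+1)).natAbs.factorization q)
  have c1 : (((Fintype.piFinset (fun _ : Fin (2*s) => range x)).filter
      (fun τ => ∀ q ∈ Q, Even (∑ i, (F.eval ((τ i:ℤ)+1)).natAbs.factorization q))).card) ≤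
      ((Fintype.piFinset (fun _ : Fin (2*s) => range x)).filter
        (fun τ => ∀ q ∈ Q, ¬ one F q τ)).card := by
    apply Finset.card_le_card
    intro τ hτ
    rw [mem_filter] at hτ ⊢
    exact ⟨hτ.1, fun q hq => not_one F q (hQ q hq).1 τ (hτ.2 q hq)⟩
  have m3 := hM3 (2*s) M x hMpos (fun τ => ∀ q ∈ Q, ¬ one F q τ) (by
    intro τ τ' h
    refine forall₂_congr fun q hq => not_congr (one_congr F q τ τ' fun i => ?_)
    exact (h i).of_dvd (Finset.dvd_prod_of_mem (fun q => q^2) hq))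
  have m2 := hM2 (2*s) Q (fun q hq => (hQ q hq).1) (fun q τ => ¬ one F q τ) (by
    intro q hq τ τ' h
    exact not_congr (one_congr F q τ τ' h))
  have m4 : ((∏ q ∈ Q, ((Fintype.piFinset (fun _ : Fin (2*s) => range (q^2))).filter
      (fun τ => ¬ one F q τ)).card : ℕ) : ℝ) ≤
      ∏ q ∈ Q, (((q:ℝ)^2)^(2*s) * Real.exp (-((s:ℝ)/(2*q)))) := by
    push_cast
    apply Finset.prod_le_prod
    · intro q _
      positivity
    · intro q hq
      refine (hM4 F q s (hQ q hq).1 (hQ q hq).2.1 hs (hQ q hq).2.2 _).trans ?_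
      apply mul_le_mul_of_nonneg_left _ (by positivity)
      have := Real.add_one_le_exp (-((s:ℝ)/(2*q)))
      linarith
  have hprod : ∏ q ∈ Q, (((q:ℝ)^2)^(2*s) * Real.exp (-((s:ℝ)/(2*q)))) =
      (M:ℝ)^(2*s) * Real.exp (-((s:ℝ)/2 * ∑ q ∈ Q, (1:ℝ)/q)) := by
    rw [Finset.prod_mul_distrib, Finset.prod_pow, ← Real.exp_sum]
    congr 1
    · rw [hM]
      push_cast
      rfl
    · congr 1
      rw [Finset.sum_neg_distrib, Finset.mul_sum]
      congr 1
      refine Finset.sum_congr rfl fun q _ => ?_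
      rw [div_mul_div_comm, mul_one]
  set N1 := ((Fintype.piFinset (fun _ : Fin (2*s) => range x)).filter
      (fun τ => ∀ q ∈ Q, Even (∑ i, (F.eval ((τ i:ℤ)+1)).natAbs.factorization q))).card with hN1
  have hcount : (N1 : ℝ) ≤
      (2 * (x:ℝ)) ^ (2*s) * Real.exp (-((s:ℝ)/2 * ∑ q ∈ Q, (1:ℝ)/q)) := by
    have h1 : N1 ≤ (x / M + 1) ^ (2*s) *
        ∏ q ∈ Q, ((Fintype.piFinset (fun _ : Fin (2*s) => range (q^2))).filter
      (fun τ => ¬ one F q τ)).card := by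
      refine c1.trans (m3.trans (le_of_eq ?_))
      rw [← m2]
    have h2 : (N1 : ℝ) ≤ ((x / M + 1 : ℕ) : ℝ) ^ (2*s) *
        ((∏ q ∈ Q, ((Fintype.piFinset (fun _ : Fin (2*s) => range (q^2))).filter
      (fun τ => ¬ one F q τ)).card : ℕ) : ℝ) := by
      exact_mod_cast h1
    refine h2.trans ?_
    refine (mul_le_mul_of_nonneg_left m4 (by positivity)).trans ?_
    rw [hprod, ← mul_assoc, ← mul_pow]
    apply mul_le_mul_of_nonneg_right _ (Real.exp_pos _).le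
    apply pow_le_pow_left₀ (by positivity)
    have h3 : (x / M + 1) * M ≤ 2 * x := by
      have := Nat.div_mul_le_self x M
      rw [add_mul, one_mul]
      omega
    exact_mod_cast h3
  -- Markov
  have hmark : ((Q.powerset.filter (fun S => η * x <
        |∑ m ∈ range x, G m *
          (((flipU S ((F.eval ((m : ℤ) + 1)).natAbs) : ℤˣ) : ℤ) : ℝ)|)).card : ℝ) *
        (η * x) ^ (2*s) ≤ ∑ S ∈ Q.powerset,
          (∑ m ∈ range x, G m * ∏ q ∈ S, (-1 : ℝ) ^ ((F.eval ((m:ℤ)+1)).natAbs.factorization q))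
            ^ (2*s) := by
    rw [← nsmul_eq_mul, ← Finset.sum_const]
    refine (Finset.sum_le_sum (g := fun S => (∑ m ∈ range x, G m * ∏ q ∈ S,
      (-1 : ℝ) ^ ((F.eval ((m:ℤ)+1)).natAbs.factorization q)) ^ (2*s)) ?_).trans ?_
    · intro S hS
      have hS2 := (mem_filter.mp hS).2
      simp only [flip_eq] at hS2
      rw [pow_mul, pow_mul]
      apply pow_le_pow_left₀ (by positivity)
      rw [← sq_abs (∑ m ∈ range x, G m * ∏ q ∈ S,
        (-1 : ℝ) ^ ((F.eval ((m:ℤ)+1)).natAbs.factorization q))]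
      exact pow_le_pow_left₀ (by positivity) hS2.le 2
    · apply Finset.sum_le_sum_of_subset_of_nonneg (Finset.filter_subset _ _)
      intro S _ _
      rw [pow_mul]
      positivity
  have hfinal : ((Q.powerset.filter (fun S => η * x <
        |∑ m ∈ range x, G m *
          (((flipU S ((F.eval ((m : ℤ) + 1)).natAbs) : ℤˣ) : ℤ) : ℝ)|)).card : ℝ) *
        (η * x) ^ (2*s) ≤ (Real.exp (-(s:ℝ)) * 2 ^ Q.card) * (η * x) ^ (2*s) := by
    refine hmark.trans (m1.trans ?_)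
    have h1 : (2 * (x:ℝ)) ^ (2*s) = (2/η) ^ (2*s) * (η * x) ^ (2*s) := by
      rw [← mul_pow]
      congr 1
      field_simp
    have h2 : (2/η) ^ (2*s) = Real.exp (2 * s * Real.log (2/η)) := by
      have : (0:ℝ) < 2/η := by positivity
      rw [← Real.exp_log this, ← Real.exp_nat_mul, Real.log_exp]
      push_cast
      rfl
    have h3 : Real.exp (2 * s * Real.log (2/η)) *
        Real.exp (-((s:ℝ)/2 * ∑ q ∈ Q, (1:ℝ)/q)) ≤ Real.exp (-(s:ℝ)) := by
      rw [← Real.exp_add]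
      apply Real.exp_le_exp.mpr
      have hs0 : (0:ℝ) ≤ (s:ℝ)/2 := by positivity
      have := mul_le_mul_of_nonneg_left hsum hs0
      nlinarith
    calc (2:ℝ) ^ Q.card * (N1 : ℝ)
        ≤ 2 ^ Q.card * ((2 * (x:ℝ)) ^ (2*s) *
            Real.exp (-((s:ℝ)/2 * ∑ q ∈ Q, (1:ℝ)/q))) :=
          mul_le_mul_of_nonneg_left hcount (by positivity)
      _ = 2 ^ Q.card * (η * x) ^ (2*s) * (Real.exp (2 * s * Real.log (2/η)) *
            Real.exp (-((s:ℝ)/2 * ∑ q ∈ Q, (1:ℝ)/q))) := by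
          rw [h1, h2]
          ring
      _ ≤ 2 ^ Q.card * (η * x) ^ (2*s) * Real.exp (-(s:ℝ)) :=
          mul_le_mul_of_nonneg_left h3 (by positivity)
      _ = (Real.exp (-(s:ℝ)) * 2 ^ Q.card) * (η * x) ^ (2*s) := by ring
  exact le_of_mul_le_mul_right hfinal (by positivity)

end Pool.Agent.W333.LQ.M5
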