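import Pool.Agent.H220M.Base4

set_option autoImplicit false

namespace Pool.Agent.W333.LQ.M6

open Finset MeasureTheory Filter Polynomial
open scoped ENNReal
open Pool.Agent.H220M

open Classical in
noncomputable def Q0 (A : Set ℕ) (y : ℕ) : Finset ℕ :=
  (Icc 1 y).filter (fun q => q ∈ A ∧ (Nat.log 2 y) ^ 2 < q)

theorem mem_Q0 (A : Set ℕ) (y q : ℕ) :
    q ∈ Q0 A y ↔ (1 ≤ q ∧ q ≤ y) ∧ q ∈ A ∧ (Nat.log 2 y) ^ 2 < q := by
  classical
  unfold Q0
  rw [mem_filter, mem_Icc]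

theorem prod_Q0 (A : Set ℕ) (hA : ∀ q ∈ A, q.Prime) (j : ℕ) :
    ∏ q ∈ Q0 A (j/4), q ^ 2 ≤ 2 ^ j := by
  have h1 : ∏ q ∈ Q0 A (j/4), q ≤ primorial (j/4) := by
    unfold primorial
    apply Finset.prod_le_prod_of_subset_of_one_le'
    · intro q hq
      rw [mem_Q0] at hq
      rw [mem_filter, mem_range]
      exact ⟨by omega, hA q hq.2.1⟩
    · intro q hq _
      exact (mem_filter.mp hq).2.one_lt.le
  rw [prod_pow]
  calc (∏ q ∈ Q0 A (j/4), q)^2 ≤ (4^(j/4))^2 :=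
        Nat.pow_le_pow_left (h1.trans (primorial_le_four_pow _)) 2
    _ = 2^(4*(j/4)) := by
        rw [show (4:ℕ)^(j/4) = (2^2)^(j/4) by norm_num, ← pow_mul, ← pow_mul]
        congr 1
        ring
    _ ≤ 2^j := Nat.pow_le_pow_right (by norm_num) (by omega)

theorem exp_bound (j : ℕ) (hj : 1 ≤ j) :
    Real.exp (-((2 * (Nat.log 2 j + 1) : ℕ) : ℝ)) ≤ 1 / (j:ℝ)^2 := by
  set l := Nat.log 2 j + 1 with hl
  have h1 : j < 2 ^ l := Nat.lt_pow_succ_log_self (by norm_num) j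
  have hj0 : (0:ℝ) < j := by exact_mod_cast hj
  have h2 : (j:ℝ) ≤ Real.exp l := by
    have h3 : (j:ℝ) ≤ 2^l := by exact_mod_cast h1.le
    have h4 : (2:ℝ) ≤ Real.exp 1 := by
      have := Real.add_one_le_exp (1:ℝ)
      linarith
    calc (j:ℝ) ≤ 2^l := h3
      _ ≤ (Real.exp 1)^l := pow_le_pow_left₀ (by norm_num) h4 l
      _ = Real.exp l := by rw [← Real.exp_nat_mul, mul_one]
  rw [Real.exp_neg, one_div]
  apply inv_anti₀ (by positivity)
  calc (j:ℝ)^2 ≤ (Real.exp l)^2 := pow_le_pow_left₀ hj0.le h2 2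
    _ = Real.exp ((2*l : ℕ) : ℝ) := by
        rw [← Real.exp_nat_mul]
        push_cast
        rfl

theorem unit_abs (u : ℤˣ) : |((u : ℤ) : ℝ)| = 1 := by
  rcases Int.units_eq_one_or u with h | h <;> simp [h]

theorem bad_bound (hC0 : StmC0) (hM5 : StmM5) (hM6b : StmM6b)
    (g : ℕ → ℤˣ) (Q : Set ℕ) (hQ : ∀ q ∈ Q, q.Prime) (F : ℤ[X]) (w : ℕ → ℝ)
    (hw : ∀ m, |w m| ≤ 1) (hT : Thick {q | q ∈ Q ∧ SimpleRoot F q}) (η : ℝ) (hη : 0 < η) :
    ∃ j0 : ℕ, 1 ≤ j0 ∧ ∀ j ≥ j0, ∀ r : ℕ, 1 ≤ r →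
      coins {ω | η * ((2^j * r : ℕ) : ℝ) < |∑ m ∈ range (2^j*r), w m *
        (((modif g Q ω ((F.eval ((m : ℤ) + 1)).natAbs) : ℤˣ) : ℤ) : ℝ)|} ≤
        ENNReal.ofReal (1 / (j:ℝ)^2) := by
  set A : Set ℕ := {q | q ∈ Q ∧ SimpleRoot F q} with hA
  have hdiv : Tendsto (fun j : ℕ => j / 4) atTop atTop :=
    tendsto_atTop.2 fun b => eventually_atTop.2 ⟨4*b, fun j hj => by omega⟩
  have hT' : Tendsto (fun y : ℕ => ∑ q ∈ Q0 A y, (1:ℝ)/q) atTop atTop := hT
  have h2 := (hT'.comp hdiv).eventually_ge_atTop (4 * Real.log (2/η) + 2)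
  obtain ⟨j1, hj1⟩ := eventually_atTop.mp h2
  set d := F.natDegree with hd
  have hpow : 1 ≤ 2 ^ (32 * d + 1) := Nat.one_le_two_pow
  refine ⟨max j1 (4 * 2 ^ (32 * d + 1)), ?_, ?_⟩
  · exact (by omega : 1 ≤ 4 * 2^(32*d+1)).trans (le_max_right _ _)
  intro j hj r hr
  have hja : j1 ≤ j := (le_max_left _ _).trans hj
  have hjb : 4 * 2^(32*d+1) ≤ j := (le_max_right _ _).trans hj
  have hj1' : 1 ≤ j := by omega
  set x := 2^j * r with hx
  set s := 2 * (Nat.log 2 j + 1) with hs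
  have hlog : Nat.log 2 (j/4) + 2 = Nat.log 2 j := by
    have e : j / 4 = j / 2 / 2 := by omega
    rw [e, Nat.log_div_base, Nat.log_div_base]
    have : 2 ≤ Nat.log 2 j := by
      apply Nat.le_log_of_pow_le (by norm_num)
      omega
    omega
  have hL : 32 * d + 1 ≤ Nat.log 2 (j/4) := by
    apply Nat.le_log_of_pow_le (by norm_num)
    omega
  have hsd : 4 * s * d ≤ (Nat.log 2 (j/4))^2 := by
    have h3 : s = 2*(Nat.log 2 (j/4) + 3) := by omega
    rw [h3]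
    generalize Nat.log 2 (j/4) = L at hL
    nlinarith
  have hprimes : ∀ q ∈ Q0 A (j/4), q.Prime ∧ SimpleRoot F q ∧ 4 * s * F.natDegree ≤ q := by
    intro q hq
    rw [mem_Q0] at hq
    exact ⟨hQ q hq.2.1.1, hq.2.1.2, hsd.trans hq.2.2.le⟩
  have hxle : ∏ q ∈ Q0 A (j/4), q^2 ≤ x :=
    (prod_Q0 A (fun q hq => hQ q hq.1) j).trans (Nat.le_mul_of_pos_right _ hr)
  have key := hM5 F η s (Q0 A (j/4)) hη (by omega) hprimes (hj1 j hja) x hxle
  have hc : Real.exp (-(s:ℝ)) ≤ 1/(j:ℝ)^2 := exp_bound j hj1'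
  refine hC0.2 g Q (Q0 A (j/4)) ?_ (fun h : ℕ → ℤˣ => η * (x:ℝ) < |∑ m ∈ range x, w m *
    (((h ((F.eval ((m : ℤ) + 1)).natAbs) : ℤˣ) : ℤ) : ℝ)|) (hM6b g Q F w x (η * x))
    (1/(j:ℝ)^2) (by positivity) ?_
  · intro q hq
    rw [mem_Q0] at hq
    exact ⟨hq.2.1.1, hQ q hq.2.1.1⟩
  · intro g'
    have k2 := key (fun m => w m * (((g' ((F.eval ((m : ℤ) + 1)).natAbs) : ℤˣ) : ℤ) : ℝ))
      (fun m => by
        rw [abs_mul, unit_abs, mul_one]
        exact hw m) (fun S => Classical.propDecidable _)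
    refine le_trans (le_of_eq ?_) (k2.trans (mul_le_mul_of_nonneg_right hc (by positivity)))
    congr 2
    apply Finset.filter_congr
    intro S _
    have e : ∀ m : ℕ, w m * (((g' ((F.eval ((m : ℤ) + 1)).natAbs) *
        flipU S ((F.eval ((m : ℤ) + 1)).natAbs) : ℤˣ) : ℤ) : ℝ) =
        w m * (((g' ((F.eval ((m : ℤ) + 1)).natAbs) : ℤˣ) : ℤ) : ℝ) *
          (((flipU S ((F.eval ((m : ℤ) + 1)).natAbs) : ℤˣ) : ℤ) : ℝ) := by
      intro m
      push_cast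
      ring
    simp only [e]

theorem tM6 (hC0 : StmC0) (hM5 : StmM5) (hM6a : StmM6a) (hM6b : StmM6b) : StmM6 := by
  intro g Q hQ F w hw hT
  have hclaim : ∀ i B : ℕ, ∀ᵐ ω ∂coins, ∀ᶠ j : ℕ in atTop, ∀ r : ℕ, B ≤ r → r < 2 * B →
      |∑ m ∈ range (2 ^ j * r), w m *
        (((modif g Q ω ((F.eval ((m : ℤ) + 1)).natAbs) : ℤˣ) : ℤ) : ℝ)| ≤
        (1 / ((i:ℝ) + 1)) * ((2 ^ j * r : ℕ) : ℝ) := by
    intro i B
    have hη : (0:ℝ) < 1 / ((i:ℝ) + 1) := by positivity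
    obtain ⟨j0, hj0, hb⟩ := bad_bound hC0 hM5 hM6b g Q hQ F w hw hT _ hη
    set E' : ℕ → ℕ → Set (ℕ → Bool) := fun j r =>
      {ω | 1 / ((i:ℝ) + 1) * ((2^j * r : ℕ) : ℝ) < |∑ m ∈ range (2^j*r), w m *
        (((modif g Q ω ((F.eval ((m : ℤ) + 1)).natAbs) : ℤˣ) : ℤ) : ℝ)|} with hE'
    set E : ℕ → Set (ℕ → Bool) := fun n => ⋃ r ∈ Finset.Ico (max B 1) (2 * B), E' (n + j0) r
      with hE
    have hEm : ∀ n, coins (E n) ≤ ENNReal.ofReal (B * (1 / ((n:ℝ) + 1) ^ 2)) := by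
      intro n
      have hcard : ((Finset.Ico (max B 1) (2 * B)).card : ℝ) ≤ B := by
        rw [Nat.card_Ico]
        have : 2 * B - max B 1 ≤ B := by omega
        exact_mod_cast this
      calc coins (E n) ≤ ∑ r ∈ Finset.Ico (max B 1) (2 * B), coins (E' (n + j0) r) :=
            measure_biUnion_finset_le _ _
        _ ≤ ∑ r ∈ Finset.Ico (max B 1) (2 * B), ENNReal.ofReal (1 / ((n:ℝ) + 1) ^ 2) := by
            refine Finset.sum_le_sum fun r hr => ?_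
            rw [Finset.mem_Ico] at hr
            refine (hb (n + j0) (by omega) r (by omega)).trans ?_
            apply ENNReal.ofReal_le_ofReal
            apply one_div_le_one_div_of_le (by positivity)
            apply pow_le_pow_left₀ (by positivity)
            push_cast
            have : (1:ℝ) ≤ j0 := by exact_mod_cast hj0
            linarith
        _ = ENNReal.ofReal (((Finset.Ico (max B 1) (2 * B)).card : ℝ) *
              (1 / ((n:ℝ) + 1) ^ 2)) := by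
            rw [Finset.sum_const, nsmul_eq_mul, ENNReal.ofReal_mul (by positivity),
              ENNReal.ofReal_natCast]
        _ ≤ ENNReal.ofReal (B * (1 / ((n:ℝ) + 1) ^ 2)) := by
            apply ENNReal.ofReal_le_ofReal
            exact mul_le_mul_of_nonneg_right hcard (by positivity)
    have hsum : Summable (fun n : ℕ => (B:ℝ) * (1 / ((n:ℝ) + 1) ^ 2)) := by
      apply Summable.mul_left
      have h3 : Summable (fun n : ℕ => 1 / (n:ℝ) ^ 2) :=
        Real.summable_one_div_nat_pow.mpr (by norm_num)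
      have h4 := (summable_nat_add_iff 1).mpr h3
      refine h4.congr fun n => ?_
      push_cast
      rfl
    have hfin : (∑' n, coins (E n)) ≠ ∞ := by
      refine ne_top_of_le_ne_top hsum.tsum_ofReal_ne_top (ENNReal.tsum_le_tsum hEm)
    filter_upwards [ae_eventually_notMem hfin] with ω hω
    obtain ⟨n0, hn0⟩ := eventually_atTop.mp hω
    refine eventually_atTop.mpr ⟨n0 + j0, fun j hj r hr1 hr2 => ?_⟩
    have h5 := hn0 (j - j0) (by omega)
    by_contra hcon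
    push Not at hcon
    apply h5
    rw [hE]
    simp only [Set.mem_iUnion]
    refine ⟨r, ?_, ?_⟩
    · rw [Finset.mem_Ico]
      omega
    · have e : j - j0 + j0 = j := by omega
      rw [e]
      exact hcon
  have hall : ∀ᵐ ω ∂coins, ∀ i B : ℕ, ∀ᶠ j : ℕ in atTop, ∀ r : ℕ, B ≤ r → r < 2 * B →
      |∑ m ∈ range (2 ^ j * r), w m *
        (((modif g Q ω ((F.eval ((m : ℤ) + 1)).natAbs) : ℤˣ) : ℤ) : ℝ)| ≤
        (1 / ((i:ℝ) + 1)) * ((2 ^ j * r : ℕ) : ℝ) :=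
    ae_all_iff.mpr fun i => ae_all_iff.mpr fun B => hclaim i B
  filter_upwards [hall] with ω hω
  apply hM6a
  · intro m
    rw [abs_mul, unit_abs, mul_one]
    exact hw m
  · intro η hη B _
    obtain ⟨i, hi⟩ := exists_nat_one_div_lt hη
    filter_upwards [hω i B] with j hj r hr1 hr2
    refine (hj r hr1 hr2).trans ?_
    exact mul_le_mul_of_nonneg_right hi.le (Nat.cast_nonneg _)

end Pool.Agent.W333.LQ.M6
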